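import Pool.Agent.H58BU.X

/-!
# Double character sums: a set of bounded doubling and an arbitrary set with `p^(1/2-c)` elements

Karatsuba's theorem gives a power saving for `∑ χ(a+b)` over `A × B` if `|A| ≥ p^ε`, `|B| ≥ p^(1/2+ε)`, for arbitrary
sets. The exponent `1/2` has not been lowered for arbitrary `A`. Here it is lowered for all sets `A` with some additive
structure: `A` has bounded doubling and at least `p^ε` elements, or is nearly invariant under such a set `P`. Then an
ARBITRARY set `B` with at least `p^(1/2-c)` elements will do, `c > 0` depending on `ε` and on the doubling constant. More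
precisely, if every translate of `P - P` contains at most `M` elements of `B`, it is enough that
`M p^(1-c) ≤ |P||B|^2`. The weights on `A` and `B` are arbitrary.

Method: by Freiman's theorem in the field with `p` elements (starting files, `Pool.Agent.W27.SD.gap_zmod`) `A` is covered
by few translates of a generalized progression which contains a progression of length `N ≥ p^κ`. On each translate the
shifts by `n + i y` (`y` prime) and Weil's bound for high moments reduce the problem to the second moment of the number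
of the representations of a pair of residues as `((u+b)/y, (u+b')/y)`; as the weights are smooth at the scale `N`, their
Fourier transform has a short support, and the second moment is a factor about `N` smaller than the trivial bound
(`Pool.Agent.H58BU.ite_any`, library of this repository).
-/

set_option autoImplicit false

namespace Pool.Agent.Results.MP_f6e9a2_nt.BoundedDoublingTimesAny

open scoped Pointwise

/-- For all `ε > 0` and `K` there are `c > 0`, `τ > 0` and `p₀` such that for every prime `p ≥ p₀`, every nontrivial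
character `χ` modulo `p`, all sets `P` with `|P| ≥ p^ε`, `|P+P| ≤ K |P|` and all sets `A`, `B` with `|A+P| ≤ p^τ |A|` (for
instance `A = P`): if
* `|B| ≥ p^(1/2-c)`, or
* `|B| ≥ p^ε` and, for some `M`, every translate of `P - P` contains at most `M` elements of `B` and
  `M p^(1-c) ≤ |P||B|^2`,

then for all weights `f`, `g` the bilinear form `∑ f(a) g(b) χ(a+b)` over `A × B` is at most
`p^(-τ) (|A||B|)^(1/2) ‖f‖₂ ‖g‖₂`. -/
theorem result :
    ∀ ε K : ℝ, 0 < ε →
      ∃ c : ℝ, 0 < c ∧ ∃ τ : ℝ, 0 < τ ∧ ∃ p₀ : ℕ, ∀ p : ℕ, p.Prime → p₀ ≤ p →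
        ∀ χ : DirichletCharacter ℂ p, χ ≠ 1 →
        ∀ A B P : Finset (ZMod p), (p : ℝ) ^ ε ≤ P.card → ((P + P).card : ℝ) ≤ K * P.card →
          ((A + P).card : ℝ) ≤ (p : ℝ) ^ τ * A.card →
          ((p : ℝ) ^ (1 / 2 - c) ≤ B.card ∨
            ((p : ℝ) ^ ε ≤ B.card ∧ ∃ M : ℕ,
              (∀ x : ZMod p, (B.filter fun b => b - x ∈ P - P).card ≤ M) ∧
              M * (p : ℝ) ^ (1 - c) ≤ P.card * (B.card : ℝ) ^ 2)) →
          ∀ f g : ZMod p → ℂ,
            ‖∑ a ∈ A, ∑ b ∈ B, f a * g b * χ (a + b)‖ ≤
              (p : ℝ) ^ (-τ) * (Real.sqrt (A.card * B.card) *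
                Real.sqrt ((∑ a ∈ A, ‖f a‖ ^ 2) * ∑ b ∈ B, ‖g b‖ ^ 2)) := by
  intro ε K hε
  obtain ⟨c, hc, τ, hτ, p₀, h⟩ := Pool.Agent.H58BU.kb_final ε K hε
  refine ⟨c, hc, τ, hτ, p₀, ?_⟩
  intro p hp hp₀ χ hχ A B P h1 h2 h3 h4 f g
  have : Fact p.Prime := ⟨hp⟩
  have h8 := h p hp₀ χ hχ A B P h1 h2 h3 h4 f g
  rw [Real.sqrt_mul (Nat.cast_nonneg _),
    Real.sqrt_mul (Finset.sum_nonneg fun a _ => by positivity)]
  exact h8

end Pool.Agent.Results.MP_f6e9a2_nt.BoundedDoublingTimesAny
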