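import Pool.Agent.H58BU.T

/-!
# Double character sums below the square root: nearly invariant sets whose sums do not concentrate

Let `P = {0, z, ..., (N-1) z}` and `P' = {0, z', ..., (N'-1) z'}` be short progressions (`N, N' ≥ p^ε`, no relation
between `z` and `z'`), and let `A`, `B` be sets of residues which grow by a factor at most `p^τ` when `P`, `P'` are
added. The starting result `ProgressionInvariantPairs` gives a power saving for all weights if the sums `a + b` do not
concentrate on a set with `p^(1/2+ε)` elements. Here it is enough that they do not concentrate on a union of at most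
`p^(1/2+ε) / (N min(N, N'))` translates of `P`, that is, on sets with `p^(1/2+ε) / min(N, N')` elements, which is
less than `p^(1/2)`.

Method: shifts of `A` by `i y + n` and of `B` by `(j+1) y θ` with small `i, j`, primes `y ≤ min(N, N') p^(-2κ)` and all
`n ≤ N/2`; the quotients `(a + b)/y` fall into the exceptional set of Weil's bound for high moments at most as often
as the second moment of the number of representations allows, and this second moment is computed with the Fourier
support of interval smooth weights (`Pool.Agent.H58BU.energyW`). The sums on cells which contain too many of them are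
removed first; the pairs of elements of `A + P`, `B + P'` outside `A`, `B` are controlled by restricting to the elements
which have many translates in `A` and in `B`.
-/

set_option autoImplicit false

namespace Pool.Agent.Results.MP_f6e9a2_nt.NonConcentrationBelowRoot

open scoped Pointwise

/-- For every `ε > 0` there are `τ > 0` and `p₀` such that for every prime `p ≥ p₀`, every nontrivial character `χ`
modulo `p`, all `z, z' ≠ 0`, all `N, N' ≥ p^ε` and all sets `A`, `B` such that
* `|A + P| ≤ p^τ |A|` with `P = {0, z, ..., (N-1) z}`, `|B + P'| ≤ p^τ |B|` with `P' = {0, z', ..., (N'-1) z'}`;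
* for every set `T` with `|T| N min(N, N') ≤ p^(1/2+ε)` at most `p^(-ε) |A||B|` of the pairs `(a, b)` in `A × B` have
  their sum in `T + P`,
and all weights `f`, `g`, the bilinear form `∑ f(a) g(b) χ(a+b)` over `A × B` is at most
`p^(-τ) (|A||B|)^(1/2) ‖f‖₂ ‖g‖₂`. -/
theorem result :
    ∀ ε : ℝ, 0 < ε →
      ∃ τ : ℝ, 0 < τ ∧ ∃ p₀ : ℕ, ∀ p : ℕ, p.Prime → p₀ ≤ p →
        ∀ χ : DirichletCharacter ℂ p, χ ≠ 1 →
        ∀ (A B : Finset (ZMod p)) (z z' : ZMod p) (N N' : ℕ), z ≠ 0 → z' ≠ 0 →
          (p : ℝ) ^ ε ≤ N → (p : ℝ) ^ ε ≤ N' →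
          ((A + (Finset.range N).image fun i : ℕ => (i : ZMod p) * z).card : ℝ) ≤
            (p : ℝ) ^ τ * A.card →
          ((B + (Finset.range N').image fun i : ℕ => (i : ZMod p) * z').card : ℝ) ≤
            (p : ℝ) ^ τ * B.card →
          (∀ T : Finset (ZMod p),
            (T.card : ℝ) * (N * (min N N' : ℕ)) ≤ (p : ℝ) ^ (1 / 2 + ε) →
            (((A ×ˢ B).filter fun t =>
              t.1 + t.2 ∈ T + (Finset.range N).image fun i : ℕ => (i : ZMod p) * z).card : ℝ) ≤
              (p : ℝ) ^ (-ε) * (A.card * B.card)) →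
          ∀ f g : ZMod p → ℂ,
            ‖∑ a ∈ A, ∑ b ∈ B, f a * g b * χ (a + b)‖ ≤
              (p : ℝ) ^ (-τ) * (Real.sqrt (A.card * B.card) *
                Real.sqrt ((∑ a ∈ A, ‖f a‖ ^ 2) * ∑ b ∈ B, ‖g b‖ ^ 2)) := by
  intro ε hε
  obtain ⟨τ, hτ, p₀, h⟩ := Pool.Agent.H58BU.cut_full ε hε
  refine ⟨τ, hτ, p₀, ?_⟩
  intro p hp hp₀ χ hχ A B z z' N N' h1 h2 h3 h4 h5 h6 h7 f g
  have : Fact p.Prime := ⟨hp⟩
  have h8 := h p hp₀ χ hχ A B z z' N N' h1 h2 h3 h4 h5 h6 h7 f g
  rw [Real.sqrt_mul (Nat.cast_nonneg _),
    Real.sqrt_mul (Finset.sum_nonneg fun a _ => by positivity)]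
  exact h8

end Pool.Agent.Results.MP_f6e9a2_nt.NonConcentrationBelowRoot
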