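import Pool.Agent.H95SD.PG4

/-!
# The Paley graph conjecture for all the subsets of homogeneous progressions

For `N = p ^ γ`, `γ > 0` small, the matrix `χ (a + b)` on `{z, 2z, ..., Nz}` has operator norm at most
`N ^ (1/2 + ε)`, the best possible exponent: this holds for the quadratic character modulo all but few primes, and for
every prime for all but few characters. So the bound of the conjecture, with a power saving, holds for ALL the subsets
`A`, `B` of `{z, 2z, ..., Nz}` with `|A| |B| ≥ N ^ (1 + 4ε)`, in particular for sets with a very small power of `p`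
elements, and in a range of `N`, for all `z`, and for all weights at the same time. (The starting file
`AlmostAllPrimes` treats a fixed pair of sets and its subsets of relative density at least `p ^ (-δ)` for a small `δ`.)

* The norms of the iterates of a vector under the matrix and its adjoint are a log-convex sequence, so the norm is
  controlled by the sum of the squares of the entries of the product of `k` matrices (`PG1.lean`);
* its entries are Dirichlet polynomials in `χ`, and by the divisor bound few walks have given products of their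
  edges (`PG2.lean`);
* the mean over the odd moduli, or over the characters, leaves the quadruples whose product is a square, or with
  `n₁ m₂ = m₁ n₂`, and again by the divisor bound there are few of them (`PG3.lean`, `PG4.lean`).
-/

set_option autoImplicit false

open Finset

namespace Pool.Agent.Results.MP_f6e9a2_nt.SubsetsOfHomogeneousProgressions

/-- All the bilinear forms with the matrix `χ (a + b)` and arbitrary weights over subsets `A` of a progression
`{n z + w : 1 ≤ n ≤ N}` and `B` of the progression `{n z - w : 1 ≤ n ≤ N}` are at most `N ^ (1/2 + ε)` times the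
product of the norms of the weights. -/
def AllForms (p : ℕ) (χ : ZMod p → ℂ) (N : ℕ) (ε : ℝ) : Prop :=
  ∀ (z w : ZMod p) (A B : Finset (ZMod p)), (∀ a ∈ A, ∃ n ∈ Icc 1 N, a = (n : ZMod p) * z + w) →
    (∀ b ∈ B, ∃ n ∈ Icc 1 N, b = (n : ZMod p) * z - w) → ∀ f g : ZMod p → ℂ,
      ‖∑ a ∈ A, ∑ b ∈ B, f a * g b * χ (a + b)‖ ≤
        (N : ℝ) ^ (1 / 2 + ε) * (Real.sqrt (∑ a ∈ A, ‖f a‖ ^ 2) * Real.sqrt (∑ b ∈ B, ‖g b‖ ^ 2))

/-- For every `ε > 0` there is `γ > 0` such that for every `η > 0` there is `c > 0` with: (1) for all large `Q`, for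
all the odd primes `p ≤ Q` but at most `Q ^ (1 - c)` of them, all the forms with the quadratic character are bounded
for all `Q ^ η ≤ N ≤ Q ^ γ`; (2) for all large primes `p`, for all but at most `p ^ (1 - c)` characters modulo `p`,
all the forms with this character are bounded for all `p ^ η ≤ N ≤ p ^ γ`. -/
theorem result :
    (∀ ε : ℝ, 0 < ε → ∃ γ : ℝ, 0 < γ ∧ ∀ η : ℝ, 0 < η → ∃ c : ℝ, 0 < c ∧
      ∃ Q₀ : ℕ, ∀ Q : ℕ, Q₀ ≤ Q → ∃ E : Finset ℕ, (E.card : ℝ) ≤ (Q : ℝ) ^ (1 - c) ∧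
        ∀ (p : ℕ) [Fact p.Prime], p ≠ 2 → p ≤ Q → p ∉ E →
          ∀ N : ℕ, (Q : ℝ) ^ η ≤ N → (N : ℝ) ≤ (Q : ℝ) ^ γ →
            AllForms p (fun a => ((quadraticChar (ZMod p) a : ℤ) : ℂ)) N ε) ∧
    (∀ ε : ℝ, 0 < ε → ∃ γ : ℝ, 0 < γ ∧ ∀ η : ℝ, 0 < η → ∃ c : ℝ, 0 < c ∧
      ∃ p₀ : ℕ, ∀ (p : ℕ) [Fact p.Prime], p₀ ≤ p → ∃ E : Finset (DirichletCharacter ℂ p),
        (E.card : ℝ) ≤ (p : ℝ) ^ (1 - c) ∧ ∀ χ : DirichletCharacter ℂ p, χ ∉ E →
          ∀ N : ℕ, (p : ℝ) ^ η ≤ N → (N : ℝ) ≤ (p : ℝ) ^ γ → AllForms p χ N ε) := by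
  refine ⟨fun ε hε => ?_, fun ε hε => ?_⟩
  · obtain ⟨γ, hγ, h⟩ := Pool.Agent.H95SD.PG.primes_main hε
    refine ⟨γ, hγ, fun η hη => ?_⟩
    obtain ⟨c, hc, Q₀, h2⟩ := h η hη
    refine ⟨c, hc, Q₀, fun Q hQ => ?_⟩
    obtain ⟨E, hE, h3⟩ := h2 Q hQ
    refine ⟨E, hE, fun p _ hp2 hpQ hpE N hN1 hN2 z w A B hA hB f g => ?_⟩
    exact h3 p hp2 hpQ hpE N hN1 hN2 z w A B hA
      (fun b hb => by obtain ⟨n, hn, h4⟩ := hB b hb; exact ⟨n, hn, by rw [h4, sub_eq_add_neg]⟩) f g
  · obtain ⟨γ, hγ, h⟩ := Pool.Agent.H95SD.PG.chars_main hε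
    refine ⟨γ, hγ, fun η hη => ?_⟩
    obtain ⟨c, hc, p₀, h2⟩ := h η hη
    refine ⟨c, hc, p₀, fun p hpp hp => ?_⟩
    obtain ⟨E, hE, h3⟩ := h2 p hp
    refine ⟨E, hE, fun χ hχ N hN1 hN2 z w A B hA hB f g => ?_⟩
    exact h3 χ hχ N hN1 hN2 z w A B hA
      (fun b hb => by obtain ⟨n, hn, h4⟩ := hB b hb; exact ⟨n, hn, by rw [h4, sub_eq_add_neg]⟩) f g

end Pool.Agent.Results.MP_f6e9a2_nt.SubsetsOfHomogeneousProgressions
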