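import Pool.Agent.H58BU.F

/-!
# Double character sums: `A` arbitrary, `B` a union of short progressions

`B` is a disjoint union of at most `|B| / N` arithmetic progressions, `N ≥ p^ε`, with arbitrary
differences (`ζ b` is the difference of the progression which contains `b`), and `A` is ARBITRARY.
The power saving holds as soon as no interval `{t, …, t + N - 1}` contains `(a + b) / ζ b` for more
than `N² p^(-1/2-ε) |A||B|` of the pairs. For one difference `z` this says that no progression
`c + {0, z, …, (N - 1) z}` contains too many sums `a + b`. The condition is void for `N ≥ p^(1/4+ε)`.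

Examples.
* `B` a progression of length `N`: it suffices that no progression of length `N` with the same
  difference contains more than `N² p^(-1/2-ε) |A| / 2` elements of `A`; so `|A| N² ≥ p^(1/2+2ε)`
  suffices for all `A` with at most one element in each such progression, for instance
  `|A| = p^(1/4)`, `N = p^(1/8+ε)`. For `N = p^β`, `|A| = p^σ`, `0 < σ < 1/2`, the condition is
  `β > 1/4 - σ/2`; Heath-Brown's mean value theorem of 2012, with exponent `3r`, needs
  `β > 1/4 - σ/3`, and Chang's theorem of 2008 needs `β > 1/4 - σ/(4(1-σ))`.
* `A = {0}`: sums over a union of `J` progressions of length `N`, `J N² ≥ p^(1/2+2ε)`, if the ratios of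
  initial term and difference do not concentrate on an interval of length `N`.

The proof: Burgess' shift `b → b + (n + x y) ζ b` with primes `x`. The weight `w(s)`, the number of
`(a, b, n)` with `(a + b)/ζ b + n = s`, is majorised by a `k`-fold average over intervals, so its
Fourier transform lives on `|η| ≤ W` up to an error `1/p`; the products `x η` are then integers smaller
than `p / 2` and each of them comes from boundedly many primes `x`. So the multiplicative energy of `w`
and the primes `x` is as small as possible, without any loss in the number of intervals. Weil's bound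
for high moments (starting files) does the rest.
-/

set_option autoImplicit false

namespace Pool.Agent.Results.MP_f6e9a2_nt.UnionsOfProgressions

open Classical in
/-- For every `ε > 0` there are `τ > 0` and `p₀` such that for every prime `p ≥ p₀`, every nontrivial
character `χ` modulo `p`, all sets `A`, `B`, every function `ζ` which does not vanish on `B` and every
`N ≥ p^ε` with
* `N` times the number of the `b ∈ B` for which `b + ζ b ∉ B` or `ζ (b + ζ b) ≠ ζ b` is at most `|B|`
  (so `B` is a disjoint union of at most `|B| / N` progressions, `ζ b` the difference of the one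
  containing `b`);
* for every `t` at most `N² p^(-1/2-ε) |A||B|` of the pairs `(a, b)` in `A × B` have `(a + b) / ζ b`
  in `{t, t + 1, …, t + N - 1}`,
one has `∑_a |∑_b χ (a + b)| ≤ p^(-τ) |A||B|`. Nothing else is assumed about `A`. -/
theorem result (ε : ℝ) (hε : 0 < ε) : ∃ τ : ℝ, 0 < τ ∧ ∃ p₀ : ℕ,
    ∀ (p : ℕ) [Fact p.Prime], p₀ ≤ p → ∀ χ : DirichletCharacter ℂ p, χ ≠ 1 →
    ∀ (A B : Finset (ZMod p)) (ζ : ZMod p → ZMod p) (N : ℕ), (p : ℝ) ^ ε ≤ N →
      (∀ b ∈ B, ζ b ≠ 0) →
      N * (B.filter fun b => ¬(b + ζ b ∈ B ∧ ζ (b + ζ b) = ζ b)).card ≤ B.card →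
      (∀ t : ZMod p, (((A ×ˢ B).filter fun x =>
          ∃ n < N, x.1 + x.2 = (t + (n : ZMod p)) * ζ x.2).card : ℝ) ≤
        (N : ℝ) ^ 2 / (p : ℝ) ^ (1 / 2 + ε) * (A.card * B.card)) →
      ∑ a ∈ A, ‖∑ b ∈ B, χ (a + b)‖ ≤ (p : ℝ) ^ (-τ) * (A.card * B.card) :=
  Pool.Agent.H58BU.main ε hε

end Pool.Agent.Results.MP_f6e9a2_nt.UnionsOfProgressions
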